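import Mathlib
import Pool.Agent.V110.WI.Expo

/-!
# MP_d61770_an: weak invertibility in `E^q(μ)` does not imply weak invertibility in `E^p(μ)`

For every `p ≥ 1` there are a symmetric measure `μ` on the closed unit disc and a function
`f ∈ E^p(μ)` which is weakly invertible in `E^q(μ)` for every `0 < q < p` but not weakly invertible
in `E^p(μ)`.
-/

set_option autoImplicit false

open Filter Topology Set Metric MeasureTheory
open scoped Real ENNReal

namespace Pool.Agent.Results.MP_d61770_an.ExponentDependence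

/-- The radial part `ν` of a symmetric measure `dμ(s, θ) = (2π)⁻¹ dν(s) dθ`: a finite Borel
measure on `[0,1]` with `ν({0}) = 0` and `ν([r,1]) > 0` for all `0 ≤ r < 1`. -/
structure IsRadial (ν : Measure ℝ) : Prop where
  finite : ν univ < ⊤
  supp : ν (Icc 0 1)ᶜ = 0
  zero : ν {0} = 0
  pos : ∀ r : ℝ, 0 ≤ r → r < 1 → 0 < ν (Icc r 1)

/-- `M_p(r; f; μ) = (∫ |f(r w)|^p dμ(w))^{1/p}` -/
noncomputable def M (p : ℝ) (ν : Measure ℝ) (f : ℂ → ℂ) (r : ℝ) : ℝ≥0∞ :=
  (∫⁻ s : ℝ, ((ENNReal.ofReal (2 * π))⁻¹ * (∫⁻ θ : ℝ in Ioc (0 : ℝ) (2 * π),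
    ENNReal.ofReal (‖f (r * (s * Complex.exp (θ * Complex.I)))‖ ^ p))) ∂ν) ^ (1 / p)

/-- `‖f‖_{p,μ} = sup_{0 ≤ r < 1} M_p(r; f; μ)` -/
noncomputable def norm (p : ℝ) (ν : Measure ℝ) (f : ℂ → ℂ) : ℝ≥0∞ :=
  ⨆ r ∈ Ico (0 : ℝ) 1, M p ν f r

/-- the class `E^p(μ)` -/
def MemE (p : ℝ) (ν : Measure ℝ) (f : ℂ → ℂ) : Prop :=
  DifferentiableOn ℂ f (ball 0 1) ∧ norm p ν f < ⊤

/-- weak invertibility in `E^p(μ)` -/
def WeaklyInvertible (p : ℝ) (ν : Measure ℝ) (f : ℂ → ℂ) : Prop :=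
  ∃ P : ℕ → Polynomial ℂ,
    Tendsto (fun n => norm p ν fun z => (P n).eval z * f z - 1) atTop (𝓝 0)

open Pool.Agent.V110.WI

private theorem nu_apply (p : ℝ) {S : Set ℝ} (hS : MeasurableSet S) :
    nu p S = ∑' k : ℕ, ENNReal.ofReal (wt p k) * S.indicator 1 (rad (k + 1)) := by
  unfold nu
  rw [Measure.sum_apply _ hS]
  congr 1
  ext k
  rw [Measure.smul_apply, Measure.dirac_apply' _ hS, smul_eq_mul]

private theorem nu_radial {p : ℝ} (hp : 1 ≤ p) : IsRadial (nu p) where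
  finite := by
    rw [nu_apply p MeasurableSet.univ]
    refine lt_of_le_of_lt (b := (1 : ℝ≥0∞)) ?_ ENNReal.one_lt_top
    rw [← tsum_half]
    refine ENNReal.tsum_le_tsum fun k => ?_
    rw [indicator_univ, Pi.one_apply, mul_one]
    apply ENNReal.ofReal_le_ofReal
    unfold wt
    have h1 : Real.exp (-(p * Lv (k + 1))) ≤ 1 := by
      apply Real.exp_le_one_iff.2
      have := Lv_nonneg (k + 1)
      nlinarith
    have h2 : (0 : ℝ) < (1 / 2) ^ (k + 1) := by positivity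
    nlinarith
  supp := by
    rw [nu_apply p measurableSet_Icc.compl, ENNReal.tsum_eq_zero]
    intro k
    rw [indicator_of_notMem, mul_zero]
    rw [notMem_compl_iff]
    exact ⟨(rad_pos _).le, (rad_lt_one _).le⟩
  zero := by
    rw [nu_apply p (measurableSet_singleton 0), ENNReal.tsum_eq_zero]
    intro k
    rw [indicator_of_notMem, mul_zero]
    exact (rad_pos _).ne'
  pos := by
    intro τ _ hτ
    obtain ⟨k, hk⟩ := exists_rad hτ
    rw [nu_apply p measurableSet_Icc]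
    refine lt_of_lt_of_le ?_ (ENNReal.le_tsum k)
    rw [indicator_of_mem, Pi.one_apply, mul_one]
    · exact ENNReal.ofReal_pos.2 (wt_pos p k)
    · exact ⟨hk.le.trans (rad_lt_succ k).le, (rad_lt_one _).le⟩

/-- **Q1 has a negative answer**: for every `p ≥ 1` there are a symmetric measure `μ` and a function
of `E^p(μ)` that is weakly invertible in `E^q(μ)` for all `q < p`, but not in `E^p(μ)`. -/
theorem result (p : ℝ) (hp : 1 ≤ p) : ∃ ν : Measure ℝ, IsRadial ν ∧ ∃ f : ℂ → ℂ,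
    MemE p ν f ∧ (∀ q : ℝ, 0 < q → q < p → WeaklyInvertible q ν f) ∧
    ¬ WeaklyInvertible p ν f := by
  obtain ⟨U, hU, hUA⟩ := exists_U
  exact ⟨nu p, nu_radial hp, fun z => Complex.exp (U z), ⟨hU.cexp, f_mem hUA hp⟩,
    fun q hq hqp => f_wi hUA hq hqp, f_not_wi hU hUA hp⟩

end Pool.Agent.Results.MP_d61770_an.ExponentDependence
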